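import Pool.Agent.Helper12.XG.St

/-!
# Module DWN of project XG (MP_627c93_nt): the forms stay small down to `N₁`
-/

set_option autoImplicit false

namespace Pool.Agent.Helper87.XG

open Finset Polynomial Pool.Agent.Helper12.XG Pool.Agent.Helper14.GS

private lemma idx_div (q a i : ℕ) (hi : i ≤ q) : (a * (q + 1) + i) / (q + 1) = a := by
  have hq : 0 < q + 1 := Nat.succ_pos q
  rw [mul_comm, Nat.mul_add_div hq, Nat.div_eq_of_lt (by omega)]
  simp

private lemma idx_mod (q a i : ℕ) (hi : i ≤ q) : (a * (q + 1) + i) % (q + 1) = i := by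
  rw [mul_comm, Nat.mul_add_mod, Nat.mod_eq_of_lt (by omega)]

theorem hDWN (h1 : StCOR) (h2 : StPRO) : Pool.Agent.Helper12.XG.StDWN := by
  intro h q Q N₁ N₂ N₃ β Bd t ϑ ε W Am hβ hBd ht hQ hN₁ h12 h23 hε hW hAm hsm hrest hJR htop
  -- the amplification constant is at least one
  have hQ1 : (1 : ℝ) ≤ (Q : ℝ) := by exact_mod_cast hQ
  have hAm1 : 1 ≤ Am := by
    rw [hAm]
    have e1 : (1 : ℝ) ≤ (Q : ℝ) + 1 := by linarith
    have e2 : (1 : ℝ) ≤ (q : ℝ) + 1 := by
      have : (0 : ℝ) ≤ (q : ℝ) := Nat.cast_nonneg q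
      linarith
    have e3 : (1 : ℝ) ≤ (16 * (Q : ℝ) ^ 4) ^ (q + 1) := by
      apply one_le_pow₀
      have : (1 : ℝ) ≤ (Q : ℝ) ^ 4 := one_le_pow₀ hQ1
      linarith
    have e4 : (1 : ℝ) ≤ ((Q : ℝ) + 1) * ((q : ℝ) + 1) := one_le_mul_of_one_le_of_one_le e1 e2
    exact one_le_mul_of_one_le_of_one_le e4 e3
  have hq0 : 0 < q + 1 := Nat.succ_pos q
  obtain ⟨n₀, hn₀⟩ : ∃ n, n = (N₃ - N₂ + 1) * (q + 1) := ⟨_, rfl⟩
  obtain ⟨n₁, hn₁⟩ : ∃ n, n = (N₃ - N₁ + 1) * (q + 1) := ⟨_, rfl⟩
  obtain ⟨z, hz⟩ : ∃ z : ℕ → ℝ, ∀ n, z n = t * Phi h q β (n % (q + 1)) (N₃ - n / (q + 1)) :=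
    ⟨_, fun n => rfl⟩
  -- value of `z` at the index of a pair
  have hzidx : ∀ N i : ℕ, N ≤ N₃ → i ≤ q → z ((N₃ - N) * (q + 1) + i) = t * Phi h q β i N := by
    intro N i hN hi
    rw [hz, idx_div q _ i hi, idx_mod q _ i hi]
    have : N₃ - (N₃ - N) = N := by omega
    rw [this]
  have hlow : ∀ n, n < n₁ → N₁ ≤ N₃ - n / (q + 1) := by
    intro n hn
    have : n / (q + 1) < N₃ - N₁ + 1 := by
      apply Nat.div_lt_of_lt_mul
      rw [mul_comm, ← hn₁]; exact hn
    omega
  have hmodle : ∀ n : ℕ, n % (q + 1) ≤ q := fun n => Nat.le_of_lt_succ (Nat.mod_lt n hq0)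
  have hJR' : ∀ n : ℕ, ∃ J R : ℤ, n < n₁ → |z n - J - ϑ * R| ≤ ε ∧ |(R : ℝ)| ≤ W := by
    intro n
    by_cases hn : n < n₁
    · obtain ⟨J, R, hh⟩ := hJR (N₃ - n / (q + 1)) (n % (q + 1)) (hlow n hn) (Nat.sub_le _ _)
        (hmodle n)
      refine ⟨J, R, fun _ => ?_⟩
      rw [hz]
      exact hh
    · exact ⟨0, 0, fun h => absurd h hn⟩
  choose J R hJRz using hJR'
  have key : ∀ n < n₁, |z n| ≤ 4 * W * Am * ε := by
    apply h1 n₀ n₁ z J R ϑ ε W Am hε hW hAm1 hsm
    · intro n hn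
      exact hJRz n hn
    · intro n hn hn'
      have hd : n / (q + 1) < N₃ - N₂ + 1 := by
        apply Nat.div_lt_of_lt_mul
        rw [mul_comm, ← hn₀]; exact hn'
      rw [hz]
      apply htop _ _ _ (Nat.sub_le _ _) (hmodle n)
      omega
    · intro n hn hn' V hV hm
      rcases eq_or_lt_of_le ht with ht0 | htp
      · rw [hz, ← ht0, zero_mul, abs_zero]
        have : 0 ≤ Am * V := mul_nonneg (by linarith) hV
        linarith
      · obtain ⟨N, hNdef⟩ : ∃ N, N = N₃ - n / (q + 1) := ⟨_, rfl⟩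
        obtain ⟨i₀, hi₀⟩ : ∃ i, i = n % (q + 1) := ⟨_, rfl⟩
        have hNlow : N₁ ≤ N := by rw [hNdef]; exact hlow n hn
        have hdge : N₃ - N₂ + 1 ≤ n / (q + 1) := by
          rw [Nat.le_div_iff_mul_le hq0, ← hn₀]; exact hn'
        have hdle : n / (q + 1) ≤ N₃ - N₁ := by
          have : n / (q + 1) < N₃ - N₁ + 1 := by
            apply Nat.div_lt_of_lt_mul
            rw [mul_comm, ← hn₁]; exact hn
          omega
        have hNN : N₃ - N = n / (q + 1) := by omega
        have hNlt : N < N₂ := by omega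
        have hi₀q : i₀ ≤ q := by rw [hi₀]; exact hmodle n
        have hnidx : n = (N₃ - N) * (q + 1) + i₀ := by
          rw [hNN, hi₀]
          exact (Nat.div_add_mod' n (q + 1)).symm
        have hznV : z n = t * Phi h q β i₀ N := by
          rw [hnidx]
          exact hzidx N i₀ (by omega) hi₀q
        have hval : ∀ M i : ℕ, M ≤ N₃ → i ≤ q → (N₃ - M) * (q + 1) + i < n →
            |Phi h q β i M| ≤ V / t := by
          intro M i hM hi hlt
          have := hm _ hlt
          rw [hzidx M i hM hi, abs_mul, abs_of_pos htp] at this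
          rw [le_div_iff₀ htp, mul_comm]
          exact this
        have hp := h2 h q Q N i₀ β Bd (V / t) hβ hQ (by omega) hi₀q (div_nonneg hV ht)
          (by
            intro i hi
            apply hval N i (by omega) (by omega)
            rw [hnidx]
            omega)
          (by
            intro k hk1 hkQ i hi
            have hk2 : 1 ≤ k ^ 2 := Nat.one_le_pow _ _ (by omega)
            have hkQ2 : k ^ 2 ≤ Q ^ 2 := Nat.pow_le_pow_left hkQ 2
            apply hval (N + k ^ 2) i (by omega) hi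
            rw [hnidx]
            have e1 : N₃ - (N + k ^ 2) + 1 ≤ N₃ - N := by omega
            have e2 : (N₃ - (N + k ^ 2) + 1) * (q + 1) ≤ (N₃ - N) * (q + 1) :=
              Nat.mul_le_mul_right _ e1
            have e3 : (N₃ - (N + k ^ 2) + 1) * (q + 1) =
                (N₃ - (N + k ^ 2)) * (q + 1) + (q + 1) := by ring
            omega)
        rw [← hAm] at hp
        rw [hznV, abs_mul, abs_of_pos htp]
        have hN1pos : (0 : ℝ) < (N₁ : ℝ) := by
          have : 0 < N₁ := by omega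
          exact_mod_cast this
        have hNpos : (0 : ℝ) < (N : ℝ) := by
          have : 0 < N := by omega
          exact_mod_cast this
        have hNN1 : (N₁ : ℝ) ≤ (N : ℝ) := by exact_mod_cast hNlow
        have hmono : (2 * (Q : ℝ) ^ 2 / N) ^ (Q * (q + 1)) ≤
            (2 * (Q : ℝ) ^ 2 / N₁) ^ (Q * (q + 1)) := by
          apply pow_le_pow_left₀ (by positivity)
          apply div_le_div_of_nonneg_left (by positivity) hN1pos hNN1
        have hcoef : 0 ≤ ((h : ℝ) + 1) * q * Bd := by positivity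
        have hrest' : t * (((h : ℝ) + 1) * q * Bd * (2 * (Q : ℝ) ^ 2 / N) ^ (Q * (q + 1))) ≤ ε := by
          refine le_trans ?_ hrest
          apply mul_le_mul_of_nonneg_left _ ht
          exact mul_le_mul_of_nonneg_left hmono hcoef
        calc t * |Phi h q β i₀ N|
            ≤ t * (Am * (V / t) +
              ((h : ℝ) + 1) * q * Bd * (2 * (Q : ℝ) ^ 2 / N) ^ (Q * (q + 1))) :=
              mul_le_mul_of_nonneg_left hp ht
          _ = Am * V +
              t * (((h : ℝ) + 1) * q * Bd * (2 * (Q : ℝ) ^ 2 / N) ^ (Q * (q + 1))) := by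
              field_simp
          _ ≤ Am * V + ε := by linarith
  intro N i hN1 hN3 hi
  have hlt : (N₃ - N) * (q + 1) + i < n₁ := by
    rw [hn₁]
    have e1 : N₃ - N + 1 ≤ N₃ - N₁ + 1 := by omega
    have e2 : (N₃ - N + 1) * (q + 1) ≤ (N₃ - N₁ + 1) * (q + 1) := Nat.mul_le_mul_right _ e1
    have e3 : (N₃ - N + 1) * (q + 1) = (N₃ - N) * (q + 1) + (q + 1) := by ring
    omega
  have hfin := key _ hlt
  rw [hzidx N i hN3 hi] at hfin
  refine le_trans hfin ?_
  have hWA : 1 ≤ W * Am := one_le_mul_of_one_le_of_one_le hW hAm1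
  have e1 : 4 * (W * Am) * ε ≤ 16 * ((W * Am) * (W * Am)) * ε := by
    apply mul_le_mul_of_nonneg_right _ hε
    nlinarith
  have e2 : 16 * W ^ 2 * Am ^ 2 * ε = 16 * ((W * Am) * (W * Am)) * ε := by ring
  have e3 : 4 * W * Am * ε = 4 * (W * Am) * ε := by ring
  rw [e3]
  linarith

end Pool.Agent.Helper87.XG
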